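import Mathlib

namespace Pool.Agent.Results.MP_0e842d_nt.Growth

/-- The pair (a₁,a₂) is k-good: some prime power p^k with p^k ≤ a₁a₂ - a₁ - a₂ has the form
a₁x + a₂y with x, y ≥ 0. -/
def Good (k a₁ a₂ : ℕ) : Prop :=
  ∃ p : ℕ, p.Prime ∧ ((p : ℤ) ^ k ≤ (a₁ : ℤ) * a₂ - a₁ - a₂) ∧ ∃ x y : ℕ, p ^ k = a₁ * x + a₂ * y

lemma bern (P k : ℕ) : P ^ k * (P + k) ≤ P * (P + 1) ^ k := by
  induction k with
  | zero => simp
  | succ k ih =>
    have h : P * (P + 1) ^ (k + 1) = (P + 1) * (P * (P + 1) ^ k) := by ring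
    rw [h]
    calc P ^ (k + 1) * (P + (k + 1)) ≤ (P + 1) * (P ^ k * (P + k)) := by
          rw [pow_succ]
          have : (P + 1) * (P ^ k * (P + k)) = P ^ k * P * (P + (k + 1)) + P ^ k * k := by ring
          omega
      _ ≤ _ := Nat.mul_le_mul_left _ ih

lemma exists_bad (m k : ℕ) (hm : 1 ≤ m) (hk : 24 * m ^ 4 ≤ k) :
    ∃ a, 2 * m ^ (k + 1) ≤ a ∧ ¬ Good k a (a + 1) := by
  by_contra hcon
  push Not at hcon
  set A := 2 * m ^ (k + 1) with hA
  set P := m ^ 2 with hP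
  have hA0 : 0 < A := by positivity
  have hP0 : 0 < P := by positivity
  have hAA : A * A = 4 * (P ^ k * P) := by rw [hA, hP]; ring
  have hbig : 6 * (A * A) ≤ (P + 1) ^ k := by
    have h1 := bern P k
    have h2 : 24 * (P * P) ≤ k := by rw [hP]; nlinarith
    have h3 : P * (6 * (A * A)) ≤ P * (P + 1) ^ k := by
      rw [hAA]
      calc P * (6 * (4 * (P ^ k * P))) = P ^ k * (24 * (P * P)) := by ring
        _ ≤ P ^ k * (P + k) := Nat.mul_le_mul_left _ (by omega)
        _ ≤ _ := h1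
    exact Nat.le_of_mul_le_mul_left h3 hP0
  have hsub : Finset.Icc A (2 * A) ⊆ (Finset.range (P + 1)).biUnion (fun p =>
      (Finset.Icc 1 (P ^ k / A)).biUnion (fun s => {p ^ k / s, p ^ k / s - 1})) := by
    intro a ha
    rw [Finset.mem_Icc] at ha
    obtain ⟨p, hp, h1, x, y, h2⟩ := hcon a ha.1
    have h3 : p ^ k ≤ a * (a + 1) := by
      have : ((p ^ k : ℕ) : ℤ) ≤ ((a * (a + 1) : ℕ) : ℤ) := by
        push_cast at h1 ⊢; nlinarith
      exact_mod_cast this
    have h4 : p ^ k < (P + 1) ^ k := by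
      have hA2 : 2 ≤ A := by
        have : 0 < m ^ (k + 1) := by positivity
        omega
      have e1 : a * (a + 1) ≤ (2 * A) * (2 * A + 1) := Nat.mul_le_mul ha.2 (by omega)
      have e2 : (2 * A) * (2 * A + 1) < 6 * (A * A) := by nlinarith
      omega
    have h5 : p < P + 1 := lt_of_pow_lt_pow_left₀ k (Nat.zero_le _) h4
    have h6 : p ^ k ≤ P ^ k := Nat.pow_le_pow_left (by omega) k
    have h7 : 0 < p ^ k := pow_pos hp.pos k
    have h8 : 0 < x + y := by
      rcases Nat.eq_zero_or_pos (x + y) with h | h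
      · have hx : x = 0 := by omega
        have hy : y = 0 := by omega
        rw [hx, hy] at h2; omega
      · exact h
    simp only [Finset.mem_biUnion, Finset.mem_range, Finset.mem_Icc, Finset.mem_insert,
      Finset.mem_singleton]
    refine ⟨p, h5, x + y, ⟨h8, ?_⟩, ?_⟩
    · rw [Nat.le_div_iff_mul_le hA0]
      nlinarith
    · have h9 : a ≤ p ^ k / (x + y) := by
        rw [Nat.le_div_iff_mul_le h8]; nlinarith
      have h10 : p ^ k / (x + y) < a + 2 := by
        rw [Nat.div_lt_iff_lt_mul h8]; nlinarith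
      omega
  have hc := Finset.card_le_card hsub
  have hc2 : ((Finset.range (P + 1)).biUnion (fun p =>
      (Finset.Icc 1 (P ^ k / A)).biUnion (fun s => ({p ^ k / s, p ^ k / s - 1} : Finset ℕ)))).card
      ≤ (P + 1) * (P ^ k / A * 2) := by
    refine (Finset.card_biUnion_le_card_mul _ _ (P ^ k / A * 2) (fun p _ => ?_)).trans (by simp)
    refine (Finset.card_biUnion_le_card_mul _ _ 2 (fun s _ => Finset.card_le_two)).trans (by simp)
  rw [Nat.card_Icc] at hc
  have h11 : P ^ k / A * A ≤ P ^ k := Nat.div_mul_le_self _ _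
  have h12 : A + 1 ≤ (P + 1) * (P ^ k / A * 2) := by omega
  have h13 : (A + 1) * A ≤ (P + 1) * 2 * P ^ k := by
    calc (A + 1) * A ≤ (P + 1) * (P ^ k / A * 2) * A := Nat.mul_le_mul_right _ h12
      _ = (P + 1) * 2 * (P ^ k / A * A) := by ring
      _ ≤ _ := Nat.mul_le_mul_left _ h11
  have h14 : 0 < P ^ k := by positivity
  nlinarith

theorem result :
    ∀ M : ℝ, 0 < M → ∃ k₀ : ℕ, ∀ k : ℕ, k₀ ≤ k → ∀ N : ℕ,
      (∀ a₁ a₂ : ℕ, Nat.Coprime a₁ a₂ → N < a₁ → a₁ < a₂ → Good k a₁ a₂) → M ^ k < (N : ℝ) := by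
  intro M hM
  obtain ⟨m, hm⟩ := exists_nat_gt M
  have hm1 : 1 ≤ m := by
    have : (0 : ℝ) < m := by linarith
    exact_mod_cast this
  refine ⟨24 * m ^ 4, fun k hk N hN => ?_⟩
  obtain ⟨a, ha, hbad⟩ := exists_bad m k hm1 hk
  have h1 : a ≤ N := by
    by_contra h
    exact hbad (hN a (a + 1) (by simp) (by omega) (by omega))
  have h2 : m ^ k < N := by
    have : 0 < m ^ k := by positivity
    rw [pow_succ] at ha
    nlinarith
  calc M ^ k ≤ (m : ℝ) ^ k := pow_le_pow_left₀ hM.le hm.le k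
    _ < N := by exact_mod_cast h2

end Pool.Agent.Results.MP_0e842d_nt.Growth
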